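import Pool.Agent.N658.FF.Stm3

/-! # Frustration-free Hamiltonians: the tree with leaf spaces -/

open scoped BigOperators InnerProductSpace Matrix Classical ComplexOrder

noncomputable section

namespace Pool.Agent.N558.FF

open Pool.Agent.N658.FF

section
variable {E : Type} [NormedAddCommGroup E] [InnerProductSpace ℂ E] [FiniteDimensional ℂ E]
variable {T ι : Type}

omit [FiniteDimensional ℂ E] in
lemma G_anti (V : T → Submodule ℂ E) {A B : Finset T} (h : A ⊆ B) : G V B ≤ G V A := by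
  unfold G
  exact biInf_mono fun x hx => h hx

lemma pr_norm_le (K : Submodule ℂ E) (u : E) : ‖pr K u‖ ≤ ‖u‖ :=
  K.norm_starProjection_apply_le u

lemma pr_inner (K : Submodule ℂ E) (u v : E) : ⟪pr K u, v⟫_ℂ = ⟪u, pr K v⟫_ℂ :=
  K.inner_starProjection_left_eq_right u v

lemma pr_idem (K : Submodule ℂ E) (u : E) : pr K (pr K u) = pr K u :=
  Submodule.starProjection_eq_self_iff.2 (Submodule.starProjection_apply_mem K u)

lemma pr_self (K : Submodule ℂ E) (u : E) : ⟪pr K u, u⟫_ℂ = ((‖pr K u‖ ^ 2 : ℝ) : ℂ) := by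
  have h : ⟪pr K u, u⟫_ℂ = ⟪pr K u, pr K u⟫_ℂ := by
    rw [← pr_inner, pr_idem]
  rw [h, inner_self_eq_norm_sq_to_K]
  norm_cast

lemma pr_pyth (K : Submodule ℂ E) (u : E) : ‖u‖ ^ 2 = ‖pr K u‖ ^ 2 + ‖u - pr K u‖ ^ 2 := by
  have h : ⟪pr K u, u - pr K u⟫_ℂ = 0 := by
    rw [inner_sub_right, pr_self, inner_self_eq_norm_sq_to_K]
    push_cast
    simp
  have h2 := norm_add_sq_eq_norm_sq_add_norm_sq_of_inner_eq_zero (pr K u) (u - pr K u) h
  rw [add_sub_cancel] at h2
  nlinarith [h2]

/-- the main estimate of one node -/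
lemma node (P W1 W2 : Submodule ℂ E) (u : E) :
    ‖pr W1 (pr P u)‖ ^ 2 + ‖pr W2 (u - pr P u)‖ ^ 2 ≤
      ‖pr (W1.map (pr P).toLinearMap ⊔ W2.map (LinearMap.id - (pr P).toLinearMap)) u‖ ^ 2 := by
  set W := W1.map (pr P).toLinearMap ⊔ W2.map (LinearMap.id - (pr P).toLinearMap) with hW
  set x := pr W1 (pr P u) with hx
  set y := pr W2 (u - pr P u) with hy
  set z := pr P x + (y - pr P y) with hz
  have hzW : z ∈ W := by
    refine Submodule.add_mem_sup ?_ ?_
    · exact ⟨x, Submodule.starProjection_apply_mem W1 _, rfl⟩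
    · exact ⟨y, Submodule.starProjection_apply_mem W2 _, rfl⟩
  have e1 : ⟪z, u⟫_ℂ = ((‖x‖ ^ 2 + ‖y‖ ^ 2 : ℝ) : ℂ) := by
    rw [hz, inner_add_left, inner_sub_left, pr_inner P x u, pr_inner P y u, ← inner_sub_right,
      hx, pr_self, hy, pr_self]
    push_cast
    rfl
  have e2 : ‖z‖ ^ 2 ≤ ‖x‖ ^ 2 + ‖y‖ ^ 2 := by
    have h0 : ⟪pr P x, y - pr P y⟫_ℂ = 0 := by
      rw [inner_sub_right, ← pr_inner P (pr P x) y, pr_idem, sub_self]
    have h2 := norm_add_sq_eq_norm_sq_add_norm_sq_of_inner_eq_zero (pr P x) (y - pr P y) h0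
    have h3 := pr_pyth P y
    have h4 := pr_pyth P x
    rw [hz]
    nlinarith [sq_nonneg ‖x - pr P x‖, sq_nonneg ‖pr P y‖]
  have e3 : ⟪z, u⟫_ℂ = ⟪z, pr W u⟫_ℂ := by
    rw [← pr_inner, Submodule.starProjection_eq_self_iff.2 hzW]
  have e4 : ‖x‖ ^ 2 + ‖y‖ ^ 2 ≤ ‖z‖ * ‖pr W u‖ := by
    have h1 : ‖⟪z, pr W u⟫_ℂ‖ ≤ ‖z‖ * ‖pr W u‖ := norm_inner_le_norm _ _
    rw [← e3, e1, Complex.norm_real, Real.norm_of_nonneg (by positivity)] at h1
    exact h1
  have hs : 0 ≤ ‖x‖ ^ 2 + ‖y‖ ^ 2 := by positivity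
  rcases hs.eq_or_lt with h | h
  · rw [← h]; positivity
  · have e5 : (‖x‖ ^ 2 + ‖y‖ ^ 2) ^ 2 ≤ (‖x‖ ^ 2 + ‖y‖ ^ 2) * ‖pr W u‖ ^ 2 := by
      calc (‖x‖ ^ 2 + ‖y‖ ^ 2) ^ 2 ≤ (‖z‖ * ‖pr W u‖) ^ 2 := by gcongr
        _ = ‖z‖ ^ 2 * ‖pr W u‖ ^ 2 := by ring
        _ ≤ (‖x‖ ^ 2 + ‖y‖ ^ 2) * ‖pr W u‖ ^ 2 := by gcongr
    nlinarith [e5]

lemma node_dim (P W1 W2 : Submodule ℂ E) :
    Module.finrank ℂ (W1.map (pr P).toLinearMap ⊔ W2.map (LinearMap.id - (pr P).toLinearMap) :
      Submodule ℂ E) ≤ Module.finrank ℂ W1 + Module.finrank ℂ W2 := by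
  refine (Submodule.finrank_add_le_finrank_add_finrank _ _).trans ?_
  exact add_le_add (Submodule.finrank_map_le _ _) (Submodule.finrank_map_le _ _)

end

theorem tree2 : StmTree2 := by
  intro E _ _ _ T ι _ _ _ V X τ w hτ hw n₀ Λ hΛ ts
  induction ts with
  | nil =>
    intro _ _ B n hn
    rcases Nat.eq_zero_or_pos n with rfl | hn0
    · refine ⟨⊥, ?_, ?_⟩
      · intro u _
        have : 0 ≤ ∑ x, w [] x * eps V x u :=
          Finset.sum_nonneg fun x _ => mul_nonneg (hw _ _) (sq_nonneg _)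
        simpa using this
      · intro δ _
        simp
    · refine ⟨Λ B, ?_, ?_⟩
      · intro u hu
        have h1 := hΛ B u hu
        have h2 : 0 ≤ ‖u‖ ^ 2 - ‖pr (Λ B) u‖ ^ 2 := by
          have := pr_pyth (Λ B) u
          nlinarith [sq_nonneg ‖u - pr (Λ B) u‖]
        have h3 : (n : ℝ) ≤ n₀ := by exact_mod_cast hn
        have h4 : (n : ℝ) * (‖u‖ ^ 2 - ‖pr (Λ B) u‖ ^ 2) ≤
            (n₀ : ℝ) * (‖u‖ ^ 2 - ‖pr (Λ B) u‖ ^ 2) := by gcongr
        simpa using h4.trans h1
      · intro δ hδ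
        have h := hδ ∅ (by simpa using hn0)
        have e : B ∪ rest X (([] : List ι).filter fun t => t ∉ (∅ : Finset ι)) = B := by
          simp [rest]
        rw [e] at h
        simpa using h
  | cons t ts ih =>
    intro hnd hst B n hn
    obtain ⟨htn, hnd'⟩ := List.nodup_cons.1 hnd
    rcases n with _ | n
    · refine ⟨⊥, ?_, ?_⟩
      · intro u _
        have h1 : 0 ≤ ∑ x, w (t :: ts) x * eps V x u :=
          Finset.sum_nonneg fun x _ => mul_nonneg (hw _ _) (sq_nonneg _)
        have h2 : 0 ≤ ((t :: ts).length : ℝ) * τ * ‖u‖ ^ 2 := by positivity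
        simp only [Nat.cast_zero, zero_mul]
        linarith
      · intro δ _
        simp
    · obtain ⟨W1, hW1, hd1⟩ := ih hnd' hst.2 (B ∪ X t) (n + 1) hn
      obtain ⟨W2, hW2, hd2⟩ := ih hnd' hst.2 B n (by omega)
      set P := G V (B ∪ X t) with hP
      refine ⟨W1.map (pr P).toLinearMap ⊔ W2.map (LinearMap.id - (pr P).toLinearMap), ?_, ?_⟩
      · intro u hu
        have ha : pr P u ∈ G V (B ∪ X t) := Submodule.starProjection_apply_mem _ _
        have hb : u - pr P u ∈ G V B :=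
          Submodule.sub_mem _ hu (G_anti V Finset.subset_union_left ha)
        have h1 := hW1 _ ha
        have h2 := hW2 _ hb
        have h3 := hst.1 B u hu
        have h4 := node P W1 W2 u
        have h5 := pr_pyth P u
        have h6 : ∑ x, w ts x * (eps V x (pr (G V (B ∪ X t)) u) +
            eps V x (u - pr (G V (B ∪ X t)) u)) =
            ∑ x, w ts x * eps V x (pr P u) + ∑ x, w ts x * eps V x (u - pr P u) := by
          rw [← Finset.sum_add_distrib]
          exact Finset.sum_congr rfl fun x _ => by rw [mul_add]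
        rw [h6, ← hP] at h3
        have h9 : (ts.length : ℝ) * τ * ‖u‖ ^ 2 = ts.length * τ * ‖pr P u‖ ^ 2 +
            ts.length * τ * ‖u - pr P u‖ ^ 2 := by
          rw [h5]; ring
        have h10 : ((n : ℝ) + 1) * ‖u‖ ^ 2 = ((n : ℝ) + 1) * ‖pr P u‖ ^ 2 +
            ((n : ℝ) + 1) * ‖u - pr P u‖ ^ 2 := by
          rw [h5]; ring
        have h7 : 0 ≤ ‖pr W2 (u - pr P u)‖ ^ 2 := by positivity
        have h8 : ((n + 1 : ℕ) : ℝ) * (‖u‖ ^ 2 - ‖pr (W1.map (pr P).toLinearMap ⊔
            W2.map (LinearMap.id - (pr P).toLinearMap)) u‖ ^ 2) ≤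
            ((n + 1 : ℕ) : ℝ) * (‖u‖ ^ 2 - (‖pr W1 (pr P u)‖ ^ 2 + ‖pr W2 (u - pr P u)‖ ^ 2)) := by
          gcongr
        refine h8.trans ?_
        push_cast at h1 h2 ⊢
        simp only [List.length_cons]
        push_cast
        linarith
      · intro δ hδ
        refine (node_dim P W1 W2).trans ?_
        have e1 : Module.finrank ℂ W1 ≤ (ts.length + 1) ^ (n + 1) * δ := by
          refine hd1 δ fun F hF => ?_
          have h := hδ (F.erase t) (lt_of_le_of_lt (Finset.card_erase_le) hF)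
          have e : (t :: ts).filter (fun s => s ∉ F.erase t) = t :: ts.filter (fun s => s ∉ F) := by
            rw [List.filter_cons_of_pos (by simp)]
            congr 1
            refine List.filter_congr fun s hs => ?_
            have : s ≠ t := fun h => htn (h ▸ hs)
            simp [this]
          rw [e] at h
          have e' : B ∪ rest X (t :: ts.filter (fun s => s ∉ F)) =
              B ∪ X t ∪ rest X (ts.filter (fun s => s ∉ F)) := by
            rw [rest, Finset.union_assoc]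
          rw [e'] at h
          exact h
        have e2 : Module.finrank ℂ W2 ≤ (ts.length + 1) ^ n * δ := by
          refine hd2 δ fun F hF => ?_
          have h := hδ (insert t F) (lt_of_le_of_lt (Finset.card_insert_le _ _) (by omega))
          have e : (t :: ts).filter (fun s => s ∉ insert t F) = ts.filter (fun s => s ∉ F) := by
            rw [List.filter_cons_of_neg (by simp)]
            refine List.filter_congr fun s hs => ?_
            have : s ≠ t := fun h => htn (h ▸ hs)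
            simp [this]
          rw [e] at h
          exact h
        calc Module.finrank ℂ W1 + Module.finrank ℂ W2
            ≤ (ts.length + 1) ^ (n + 1) * δ + (ts.length + 1) ^ n * δ := add_le_add e1 e2
          _ = (ts.length + 1) ^ n * (ts.length + 2) * δ := by ring
          _ ≤ (ts.length + 2) ^ n * (ts.length + 2) * δ := by
              gcongr
              omega
          _ = ((t :: ts).length + 1) ^ (n + 1) * δ := by
              simp only [List.length_cons]
              ring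

end Pool.Agent.N558.FF
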